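import Mathlib

/-!
# A tetrahedron violating the Heron-type lower bound for `V₂` in `ℝ³`

`K` is the tetrahedron with vertices `(-6,-6,-6)`, `(30,0,0)`, `(0,30,0)`, `(0,0,30)`; the origin is
an interior point. `V₂(K) = 225 √3 + 135 √51`, and the three sections by the coordinate planes are
congruent triangles with half-perimeter `40 √2`.
-/

set_option autoImplicit false

open MeasureTheory Set
open scoped ENNReal

namespace Pool.Agent.Results.MP_6df474_gt.TetrahedronDisproof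

/-- Euclidean space `ℝⁿ`. -/
abbrev E (n : ℕ) : Type := EuclideanSpace ℝ (Fin n)

/-- A convex body in `ℝ³`: a compact convex set with nonempty interior. -/
def IsConvexBody (K : Set (E 3)) : Prop := IsCompact K ∧ Convex ℝ K ∧ (interior K).Nonempty

/-- The surface area: the two-dimensional Hausdorff measure of the boundary (normalised so that it
agrees with Lebesgue measure on planes). -/
noncomputable def surfaceArea (K : Set (E 3)) : ℝ := (μHE[2] (frontier K)).toReal

/-- The perimeter of a planar convex set with nonempty interior: the one-dimensional Hausdorff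
measure of its boundary. -/
noncomputable def perimeter (L : Set (E 2)) : ℝ := (μHE[1] (frontier L)).toReal

/-- The intrinsic volume `V₂` of a convex body in `ℝ³`: half the surface area. -/
noncomputable def V2 (K : Set (E 3)) : ℝ := surfaceArea K / 2

/-- The intrinsic volume `V₁` of a planar convex set with nonempty interior: half the perimeter. -/
noncomputable def V1 (L : Set (E 2)) : ℝ := perimeter L / 2

/-- The section `K ∩ e_i^⊥` by a coordinate plane, as a subset of `ℝ²`: the points `y` of `ℝ²` such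
that inserting a zero as `i`-th coordinate gives a point of `K`. -/
def coordSection (K : Set (E 3)) (i : Fin 3) : Set (E 2) :=
  {y | WithLp.toLp 2 (Fin.insertNth i (0 : ℝ) (fun j : Fin 2 => y j)) ∈ K}

/-! ### Lengths and areas -/

theorem nd1 {n : ℕ} (u : E n) : (LinearMap.toSpanSingleton ℝ (E n) u).normDet ^ 2 = ‖u‖ ^ 2 := by
  have := (LinearMap.toSpanSingleton ℝ (E n) u).normDet_sq_eq_det_gram
    (OrthonormalBasis.singleton (Fin 1) ℝ)
  simp only [RCLike.ofReal_real_eq_id, id_eq] at this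
  rw [this, Matrix.det_unique]
  simp [Matrix.gram]

/-- the image of `s` under `t ↦ p + t u` -/
theorem length_image {n : ℕ} (p u : E n) (s : Set ℝ) {c : ℝ} (hc : 0 ≤ c) (hu : ‖u‖ ^ 2 = c ^ 2) :
    μHE[1] ((fun t : ℝ => p + t • u) '' s) = ENNReal.ofReal c * volume s := by
  have h1 : (fun t : ℝ => p + t • u) '' s =
      (fun x : E n => p + x) '' ((LinearMap.toSpanSingleton ℝ (E n) u) '' s) := by
    rw [image_image]; rfl
  rw [h1, (isometry_add_left p).euclideanHausdorffMeasure_image]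
  have h2 := (LinearMap.toSpanSingleton ℝ (E n) u).euclideanHausdorffMeasure_image_eq_normDet_mul_volume s
  rw [Module.finrank_self] at h2
  rw [h2]
  congr 2
  have h3 := nd1 u
  have h4 := (LinearMap.toSpanSingleton ℝ (E n) u).normDet_nonneg
  rw [hu] at h3
  exact (pow_left_inj₀ h4 hc two_ne_zero).1 h3

theorem nd2 {n : ℕ} (u v : E n) (f : E 2 →ₗ[ℝ] E n) (h0 : f (EuclideanSpace.single 0 1) = u)
    (h1 : f (EuclideanSpace.single 1 1) = v) :
    f.normDet ^ 2 = ‖u‖ ^ 2 * ‖v‖ ^ 2 - inner ℝ u v ^ 2 := by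
  have := f.normDet_sq_eq_det_gram (EuclideanSpace.basisFun (Fin 2) ℝ)
  simp only [RCLike.ofReal_real_eq_id, id_eq] at this
  rw [this]
  have h2 := Matrix.det_fin_two (Matrix.gram ℝ fun x => f ((EuclideanSpace.basisFun (Fin 2) ℝ) x))
  convert h2 using 1
  simp [Matrix.gram, h0, h1, real_inner_comm]
  ring

/-- The standard triangle. -/
def stdTri : Set (E 2) := {y | 0 ≤ y 0 ∧ 0 ≤ y 1 ∧ y 0 + y 1 ≤ 1}

theorem tri_vol : volume stdTri = ENNReal.ofReal (1 / 2) := by
  set T : Set (ℝ × ℝ) := {q : ℝ × ℝ | 0 ≤ q.1 ∧ 0 ≤ q.2 ∧ q.1 + q.2 ≤ 1} with hT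
  have h1 : stdTri = (fun y : E 2 => ((y 0, y 1) : ℝ × ℝ)) ⁻¹' T := rfl
  have hmp : MeasurePreserving (fun y : E 2 => ((y 0, y 1) : ℝ × ℝ)) := by
    have a := (EuclideanSpace.volume_preserving_symm_measurableEquiv_toLp (Fin 2))
    have b := MeasureTheory.volume_preserving_finTwoArrow ℝ
    exact b.comp a
  have hTm : MeasurableSet T := by
    apply IsClosed.measurableSet
    exact (isClosed_le continuous_const continuous_fst).inter
      ((isClosed_le continuous_const continuous_snd).inter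
        (isClosed_le (continuous_fst.add continuous_snd) continuous_const))
  rw [h1, hmp.measure_preimage hTm.nullMeasurableSet, Measure.volume_eq_prod,
    Measure.prod_apply hTm]
  have h2 : ∀ x : ℝ, volume (Prod.mk x ⁻¹' T) =
      (Icc (0 : ℝ) 1).indicator (fun x => ENNReal.ofReal (1 - x)) x := by
    intro x
    by_cases hx : x ∈ Icc (0 : ℝ) 1
    · rw [indicator_of_mem hx]
      have : Prod.mk x ⁻¹' T = Icc 0 (1 - x) := by
        ext y
        simp only [hT, mem_preimage, mem_ofPred_eq, mem_Icc]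
        constructor
        · rintro ⟨_, h2, h3⟩; exact ⟨h2, by linarith⟩
        · rintro ⟨h2, h3⟩; exact ⟨hx.1, h2, by linarith⟩
      rw [this, Real.volume_Icc, sub_zero]
    · rw [indicator_of_notMem hx]
      have : Prod.mk x ⁻¹' T = ∅ := by
        ext y
        simp only [hT, mem_preimage, mem_ofPred_eq, mem_empty_iff_false, iff_false]
        rintro ⟨h1, h2, h3⟩
        exact hx ⟨h1, by linarith⟩
      rw [this, measure_empty]
  simp_rw [h2]
  rw [lintegral_indicator measurableSet_Icc]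
  rw [← ofReal_integral_eq_lintegral_ofReal]
  · congr 1
    rw [integral_Icc_eq_integral_Ioc, ← intervalIntegral.integral_of_le zero_le_one,
      intervalIntegral.integral_sub (by simp) (by simp)]
    simp
    norm_num
  · exact (continuous_const.sub continuous_id).continuousOn.integrableOn_Icc
  · filter_upwards [ae_restrict_mem measurableSet_Icc] with x hx
    simp only [Pi.zero_apply]
    linarith [hx.2]

/-- the triangle with vertices `p, p + u, p + v` -/
def tri {n : ℕ} (p u v : E n) : Set (E n) :=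
  {x | ∃ s t : ℝ, 0 ≤ s ∧ 0 ≤ t ∧ s + t ≤ 1 ∧ x = p + (s • u + t • v)}

theorem area_tri {n : ℕ} (p u v : E n) {g : ℝ} (hg : 0 ≤ g)
    (h : ‖u‖ ^ 2 * ‖v‖ ^ 2 - inner ℝ u v ^ 2 = (2 * g) ^ 2) :
    μHE[2] (tri p u v) = ENNReal.ofReal g := by
  let f : E 2 →ₗ[ℝ] E n :=
    { toFun := fun y => y 0 • u + y 1 • v
      map_add' := by
        intro x y
        simp only [PiLp.add_apply, add_smul]
        abel
      map_smul' := by
        intro c x
        simp only [PiLp.smul_apply, smul_eq_mul, RingHom.id_apply, smul_add, smul_smul] }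
  have hf : ∀ y : E 2, f y = y 0 • u + y 1 • v := fun y => rfl
  have h1 : tri p u v = (fun x : E n => p + x) '' (f '' stdTri) := by
    rw [image_image]
    ext x
    constructor
    · rintro ⟨s, t, hs, ht, hst, rfl⟩
      refine ⟨WithLp.toLp 2 ![s, t], ⟨?_, ?_, ?_⟩, ?_⟩
      · simpa using hs
      · simpa using ht
      · simpa using hst
      · simp [hf]
    · rintro ⟨y, ⟨h0, h1, h2⟩, rfl⟩
      exact ⟨y 0, y 1, h0, h1, h2, rfl⟩
  rw [h1, (isometry_add_left p).euclideanHausdorffMeasure_image]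
  have h2 := f.euclideanHausdorffMeasure_image_eq_normDet_mul_volume stdTri
  rw [finrank_euclideanSpace_fin] at h2
  rw [h2, tri_vol]
  have h3 := nd2 u v f (by simp [hf]) (by simp [hf])
  rw [h] at h3
  have h4 := (pow_left_inj₀ f.normDet_nonneg (by positivity) two_ne_zero).1 h3
  rw [h4, ← ENNReal.ofReal_mul (by positivity)]
  congr 1
  ring

/-! ### The tetrahedron -/

/-- The tetrahedron, by its four facet inequalities. -/
def K : Set (E 3) :=
  {x | x 0 + x 1 + x 2 ≤ 30 ∧ x 0 + x 1 - 7 * x 2 ≤ 30 ∧ x 0 - 7 * x 1 + x 2 ≤ 30 ∧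
    -7 * x 0 + x 1 + x 2 ≤ 30}

/-- The points satisfying the strict inequalities. -/
def Ko : Set (E 3) :=
  {x | x 0 + x 1 + x 2 < 30 ∧ x 0 + x 1 - 7 * x 2 < 30 ∧ x 0 - 7 * x 1 + x 2 < 30 ∧
    -7 * x 0 + x 1 + x 2 < 30}

theorem Ko_open : IsOpen Ko := by
  have h : Ko = {x : E 3 | x 0 + x 1 + x 2 < 30} ∩ ({x : E 3 | x 0 + x 1 - 7 * x 2 < 30} ∩
      ({x : E 3 | x 0 - 7 * x 1 + x 2 < 30} ∩ {x : E 3 | -7 * x 0 + x 1 + x 2 < 30})) := by
    ext x; exact Iff.rfl
  rw [h]
  refine IsOpen.inter (isOpen_lt ?_ ?_) (IsOpen.inter (isOpen_lt ?_ ?_)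
    (IsOpen.inter (isOpen_lt ?_ ?_) (isOpen_lt ?_ ?_))) <;> fun_prop

theorem K_closed : IsClosed K := by
  have h : K = {x : E 3 | x 0 + x 1 + x 2 ≤ 30} ∩ ({x : E 3 | x 0 + x 1 - 7 * x 2 ≤ 30} ∩
      ({x : E 3 | x 0 - 7 * x 1 + x 2 ≤ 30} ∩ {x : E 3 | -7 * x 0 + x 1 + x 2 ≤ 30})) := by
    ext x; exact Iff.rfl
  rw [h]
  refine IsClosed.inter (isClosed_le ?_ ?_) (IsClosed.inter (isClosed_le ?_ ?_)
    (IsClosed.inter (isClosed_le ?_ ?_) (isClosed_le ?_ ?_))) <;> fun_prop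

theorem Ko_sub : Ko ⊆ interior K :=
  interior_maximal (fun _ hx => ⟨hx.1.le, hx.2.1.le, hx.2.2.1.le, hx.2.2.2.le⟩) Ko_open

theorem zero_mem : (0 : E 3) ∈ interior K := by
  apply Ko_sub
  refine ⟨?_, ?_, ?_, ?_⟩ <;> norm_num

theorem K_body : IsConvexBody K := by
  refine ⟨?_, ?_, ⟨0, zero_mem⟩⟩
  · apply Metric.isCompact_of_isClosed_isBounded K_closed
    refine (Metric.isBounded_iff_subset_closedBall 0).2 ⟨100, fun x hx => ?_⟩
    obtain ⟨h1, h2, h3, h4⟩ := hx
    rw [mem_closedBall_zero_iff]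
    have e := EuclideanSpace.norm_sq_eq x
    simp only [Real.norm_eq_abs, sq_abs, Fin.sum_univ_three] at e
    have a0 : -6 ≤ x 0 := by linarith
    have a1 : -6 ≤ x 1 := by linarith
    have a2 : -6 ≤ x 2 := by linarith
    have b0 : x 0 ≤ 42 := by linarith
    have b1 : x 1 ≤ 42 := by linarith
    have b2 : x 2 ≤ 42 := by linarith
    have c0 : x 0 ^ 2 ≤ 42 ^ 2 := by nlinarith
    have c1 : x 1 ^ 2 ≤ 42 ^ 2 := by nlinarith
    have c2 : x 2 ^ 2 ≤ 42 ^ 2 := by nlinarith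
    nlinarith [norm_nonneg x]
  · intro x hx y hy a b ha hb hab
    obtain ⟨h1, h2, h3, h4⟩ := hx
    obtain ⟨k1, k2, k3, k4⟩ := hy
    have e : b = 1 - a := by linarith
    subst e
    simp only [K, mem_ofPred_eq, PiLp.add_apply, PiLp.smul_apply, smul_eq_mul]
    refine ⟨?_, ?_, ?_, ?_⟩ <;> nlinarith

/-- vectors of `ℝ³` -/
def vec (a b c : ℝ) : E 3 := WithLp.toLp 2 ![a, b, c]

theorem vec_norm (a b c : ℝ) : ‖vec a b c‖ ^ 2 = a ^ 2 + b ^ 2 + c ^ 2 := by
  rw [EuclideanSpace.norm_sq_eq]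
  simp [vec, Fin.sum_univ_three]

theorem vec_inner (a b c a' b' c' : ℝ) :
    inner ℝ (vec a b c) (vec a' b' c') = a * a' + b * b' + c * c' := by
  simp [vec, PiLp.inner_apply, Fin.sum_univ_three]
  ring

theorem ext_vec {x y : E 3} (h0 : x 0 = y 0) (h1 : x 1 = y 1) (h2 : x 2 = y 2) : x = y := by
  ext i
  fin_cases i
  · exact h0
  · exact h1
  · exact h2

theorem frontier_K : frontier K ⊆
    tri (vec 30 0 0) (vec (-30) 30 0) (vec (-30) 0 30) ∪
    (tri (vec (-6) (-6) (-6)) (vec 36 6 6) (vec 6 36 6) ∪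
    (tri (vec (-6) (-6) (-6)) (vec 36 6 6) (vec 6 6 36) ∪
    tri (vec (-6) (-6) (-6)) (vec 6 36 6) (vec 6 6 36))) := by
  intro x hx
  have hxK : x ∈ K := K_closed.frontier_subset hx
  have hxo : x ∉ Ko := fun h => hx.2 (Ko_sub h)
  obtain ⟨h1, h2, h3, h4⟩ := hxK
  by_cases e1 : x 0 + x 1 + x 2 = 30
  · left
    refine ⟨x 1 / 30, x 2 / 30, by linarith, by linarith, by linarith, ext_vec ?_ ?_ ?_⟩
    · simp [vec]; linarith
    · simp [vec]
    · simp [vec]
  right
  by_cases e2 : x 0 + x 1 - 7 * x 2 = 30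
  · left
    refine ⟨(x 0 - x 2) / 30, (x 1 - x 2) / 30, by linarith, by linarith, by linarith,
      ext_vec ?_ ?_ ?_⟩
    · simp [vec]; linarith
    · simp [vec]; linarith
    · simp [vec]; linarith
  right
  by_cases e3 : x 0 - 7 * x 1 + x 2 = 30
  · left
    refine ⟨(x 0 - x 1) / 30, (x 2 - x 1) / 30, by linarith, by linarith, by linarith,
      ext_vec ?_ ?_ ?_⟩
    · simp [vec]; linarith
    · simp [vec]; linarith
    · simp [vec]; linarith
  right
  by_cases e4 : -7 * x 0 + x 1 + x 2 = 30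
  · refine ⟨(x 1 - x 0) / 30, (x 2 - x 0) / 30, by linarith, by linarith, by linarith,
      ext_vec ?_ ?_ ?_⟩
    · simp [vec]; linarith
    · simp [vec]; linarith
    · simp [vec]; linarith
  · exact absurd ⟨lt_of_le_of_ne h1 e1, lt_of_le_of_ne h2 e2, lt_of_le_of_ne h3 e3,
      lt_of_le_of_ne h4 e4⟩ hxo

theorem V2_le : V2 K ≤ 225 * √3 + 135 * √51 := by
  have s3 : √3 ^ 2 = 3 := Real.sq_sqrt (by norm_num)
  have s51 : √51 ^ 2 = 51 := Real.sq_sqrt (by norm_num)
  have a1 : μHE[2] (tri (vec 30 0 0) (vec (-30) 30 0) (vec (-30) 0 30)) =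
      ENNReal.ofReal (450 * √3) := by
    apply area_tri _ _ _ (by positivity)
    rw [vec_norm, vec_norm, vec_inner]
    nlinarith
  have a2 : μHE[2] (tri (vec (-6) (-6) (-6)) (vec 36 6 6) (vec 6 36 6)) =
      ENNReal.ofReal (90 * √51) := by
    apply area_tri _ _ _ (by positivity)
    rw [vec_norm, vec_norm, vec_inner]
    nlinarith
  have a3 : μHE[2] (tri (vec (-6) (-6) (-6)) (vec 36 6 6) (vec 6 6 36)) =
      ENNReal.ofReal (90 * √51) := by
    apply area_tri _ _ _ (by positivity)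
    rw [vec_norm, vec_norm, vec_inner]
    nlinarith
  have a4 : μHE[2] (tri (vec (-6) (-6) (-6)) (vec 6 36 6) (vec 6 6 36)) =
      ENNReal.ofReal (90 * √51) := by
    apply area_tri _ _ _ (by positivity)
    rw [vec_norm, vec_norm, vec_inner]
    nlinarith
  have h1 : μHE[2] (frontier K) ≤ ENNReal.ofReal (450 * √3 + (90 * √51 + (90 * √51 + 90 * √51))) := by
    refine (measure_mono frontier_K).trans ?_
    refine (measure_union_le _ _).trans ?_
    rw [ENNReal.ofReal_add (by positivity) (by positivity), a1]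
    gcongr
    refine (measure_union_le _ _).trans ?_
    rw [ENNReal.ofReal_add (by positivity) (by positivity), a2]
    gcongr
    refine (measure_union_le _ _).trans ?_
    rw [ENNReal.ofReal_add (by positivity) (by positivity), a3, a4]
  have h2 := ENNReal.toReal_mono ENNReal.ofReal_ne_top h1
  rw [ENNReal.toReal_ofReal (by positivity)] at h2
  unfold V2 surfaceArea
  linarith

/-! ### The sections -/

/-- The triangle in `ℝ²` with vertices `(30,0)`, `(0,30)`, `(-5,-5)`. -/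
def T : Set (E 2) := {y | y 0 + y 1 ≤ 30 ∧ y 0 - 7 * y 1 ≤ 30 ∧ -7 * y 0 + y 1 ≤ 30}

/-- The interior of the triangle. -/
def To : Set (E 2) := {y | y 0 + y 1 < 30 ∧ y 0 - 7 * y 1 < 30 ∧ -7 * y 0 + y 1 < 30}

theorem section_eq (i : Fin 3) : coordSection K i = T := by
  ext y
  fin_cases i
  · have h : y ∈ coordSection K 0 ↔ (0 + y 0 + y 1 ≤ 30 ∧ 0 + y 0 - 7 * y 1 ≤ 30 ∧
      0 - 7 * y 0 + y 1 ≤ 30 ∧ -7 * 0 + y 0 + y 1 ≤ 30) := Iff.rfl
    show y ∈ coordSection K 0 ↔ _
    rw [h]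
    constructor
    · rintro ⟨h1, h2, h3, h4⟩; exact ⟨by linarith, by linarith, by linarith⟩
    · rintro ⟨h1, h2, h3⟩; exact ⟨by linarith, by linarith, by linarith, by linarith⟩
  · have h : y ∈ coordSection K 1 ↔ (y 0 + 0 + y 1 ≤ 30 ∧ y 0 + 0 - 7 * y 1 ≤ 30 ∧
      y 0 - 7 * 0 + y 1 ≤ 30 ∧ -7 * y 0 + 0 + y 1 ≤ 30) := Iff.rfl
    show y ∈ coordSection K 1 ↔ _
    rw [h]
    constructor
    · rintro ⟨h1, h2, h3, h4⟩; exact ⟨by linarith, by linarith, by linarith⟩
    · rintro ⟨h1, h2, h3⟩; exact ⟨by linarith, by linarith, by linarith, by linarith⟩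
  · have h : y ∈ coordSection K 2 ↔ (y 0 + y 1 + 0 ≤ 30 ∧ y 0 + y 1 - 7 * 0 ≤ 30 ∧
      y 0 - 7 * y 1 + 0 ≤ 30 ∧ -7 * y 0 + y 1 + 0 ≤ 30) := Iff.rfl
    show y ∈ coordSection K 2 ↔ _
    rw [h]
    constructor
    · rintro ⟨h1, h2, h3, h4⟩; exact ⟨by linarith, by linarith, by linarith⟩
    · rintro ⟨h1, h2, h3⟩; exact ⟨by linarith, by linarith, by linarith, by linarith⟩

theorem To_open : IsOpen To := by
  have h : To = {y : E 2 | y 0 + y 1 < 30} ∩ ({y : E 2 | y 0 - 7 * y 1 < 30} ∩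
      {y : E 2 | -7 * y 0 + y 1 < 30}) := by
    ext x; exact Iff.rfl
  rw [h]
  refine IsOpen.inter (isOpen_lt ?_ ?_) (IsOpen.inter (isOpen_lt ?_ ?_)
    (isOpen_lt ?_ ?_)) <;> fun_prop

theorem T_closed : IsClosed T := by
  have h : T = {y : E 2 | y 0 + y 1 ≤ 30} ∩ ({y : E 2 | y 0 - 7 * y 1 ≤ 30} ∩
      {y : E 2 | -7 * y 0 + y 1 ≤ 30}) := by
    ext x; exact Iff.rfl
  rw [h]
  refine IsClosed.inter (isClosed_le ?_ ?_) (IsClosed.inter (isClosed_le ?_ ?_)
    (isClosed_le ?_ ?_)) <;> fun_prop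

theorem To_sub : To ⊆ interior T :=
  interior_maximal (fun _ hx => ⟨hx.1.le, hx.2.1.le, hx.2.2.le⟩) To_open

/-- vectors of `ℝ²` -/
def vec2 (a b : ℝ) : E 2 := WithLp.toLp 2 ![a, b]

theorem vec2_norm (a b : ℝ) : ‖vec2 a b‖ ^ 2 = a ^ 2 + b ^ 2 := by
  rw [EuclideanSpace.norm_sq_eq]
  simp [vec2, Fin.sum_univ_two]

theorem ext_vec2 {x y : E 2} (h0 : x 0 = y 0) (h1 : x 1 = y 1) : x = y := by
  ext i
  fin_cases i
  · exact h0
  · exact h1

/-- The affine parametrisation of an edge. -/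
noncomputable def edge (p u : E 2) (s : Set ℝ) : Set (E 2) := (fun t : ℝ => p + t • u) '' s

theorem len1 (s : Set ℝ) : μHE[1] (edge (vec2 30 0) (vec2 (-30) 30) s) =
    ENNReal.ofReal (30 * √2) * volume s := by
  apply length_image _ _ _ (by positivity)
  rw [vec2_norm, mul_pow, Real.sq_sqrt (by norm_num)]
  norm_num

theorem len2 (s : Set ℝ) : μHE[1] (edge (vec2 0 30) (vec2 (-5) (-35)) s) =
    ENNReal.ofReal (25 * √2) * volume s := by
  apply length_image _ _ _ (by positivity)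
  rw [vec2_norm, mul_pow, Real.sq_sqrt (by norm_num)]
  norm_num

theorem len3 (s : Set ℝ) : μHE[1] (edge (vec2 (-5) (-5)) (vec2 35 5) s) =
    ENNReal.ofReal (25 * √2) * volume s := by
  apply length_image _ _ _ (by positivity)
  rw [vec2_norm, mul_pow, Real.sq_sqrt (by norm_num)]
  norm_num

theorem frontier_T : frontier T ⊆ edge (vec2 30 0) (vec2 (-30) 30) (Icc 0 1) ∪
    (edge (vec2 0 30) (vec2 (-5) (-35)) (Icc 0 1) ∪
      edge (vec2 (-5) (-5)) (vec2 35 5) (Icc 0 1)) := by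
  intro y hy
  have hyT : y ∈ T := T_closed.frontier_subset hy
  have hyo : y ∉ To := fun h => hy.2 (To_sub h)
  obtain ⟨h1, h2, h3⟩ := hyT
  by_cases e1 : y 0 + y 1 = 30
  · left
    refine ⟨y 1 / 30, ⟨by linarith, by linarith⟩, ext_vec2 ?_ ?_⟩
    · simp [vec2]; linarith
    · simp [vec2]
  right
  by_cases e2 : -7 * y 0 + y 1 = 30
  · left
    refine ⟨- y 0 / 5, ⟨by linarith, by linarith⟩, ext_vec2 ?_ ?_⟩
    · simp [vec2]
    · simp [vec2]; linarith
  right
  by_cases e3 : y 0 - 7 * y 1 = 30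
  · refine ⟨(y 0 + 5) / 35, ⟨by linarith, by linarith⟩, ext_vec2 ?_ ?_⟩
    · simp [vec2]
    · simp [vec2]; linarith
  · exact absurd ⟨lt_of_le_of_ne h1 e1, lt_of_le_of_ne h2 e3, lt_of_le_of_ne h3 e2⟩ hyo

theorem not_interior {S : Set (E 2)} {y w : E 2} (h : ∀ t : ℝ, 0 < t → y + t • w ∉ S) :
    y ∉ interior S := by
  intro hy
  have hc : Continuous (fun t : ℝ => y + t • w) := by fun_prop
  have h0 : (fun t : ℝ => y + t • w) ⁻¹' (interior S) ∈ nhds (0 : ℝ) := by
    apply hc.continuousAt.preimage_mem_nhds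
    simp only [zero_smul, add_zero]
    exact isOpen_interior.mem_nhds hy
  have h1 : ∀ᶠ t in nhdsWithin (0 : ℝ) (Ioi 0), (fun t : ℝ => y + t • w) t ∈ interior S :=
    nhdsWithin_le_nhds h0
  obtain ⟨t, ht1, ht2⟩ := (h1.and self_mem_nhdsWithin).exists
  exact h t ht2 (interior_subset ht1)

theorem edge1_sub : edge (vec2 30 0) (vec2 (-30) 30) (Ioo 0 1) ⊆
    frontier T ∩ {y | y 0 + y 1 = 30} := by
  rintro _ ⟨t, ⟨ht0, ht1⟩, rfl⟩
  have e0 : (vec2 30 0 + t • vec2 (-30) 30 : E 2) 0 = 30 - 30 * t := by simp [vec2]; ring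
  have e1 : (vec2 30 0 + t • vec2 (-30) 30 : E 2) 1 = 30 * t := by simp [vec2]; ring
  refine ⟨⟨subset_closure ⟨?_, ?_, ?_⟩, not_interior (w := vec2 1 1) fun r hr hT => ?_⟩, ?_⟩
  · simp only [e0, e1]; linarith
  · simp only [e0, e1]; linarith
  · simp only [e0, e1]; linarith
  · have := hT.1
    have f0 : ((vec2 30 0 + t • vec2 (-30) 30) + r • vec2 1 1 : E 2) 0 = 30 - 30 * t + r := by
      simp [vec2]; ring
    have f1 : ((vec2 30 0 + t • vec2 (-30) 30) + r • vec2 1 1 : E 2) 1 = 30 * t + r := by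
      simp [vec2]; ring
    simp only [f0, f1] at this
    linarith
  · simp only [mem_ofPred_eq, e0, e1]; ring

theorem edge2_sub : edge (vec2 0 30) (vec2 (-5) (-35)) (Ioo 0 1) ⊆
    (frontier T \ {y | y 0 + y 1 = 30}) ∩ {y | -7 * y 0 + y 1 = 30} := by
  rintro _ ⟨t, ⟨ht0, ht1⟩, rfl⟩
  have e0 : (vec2 0 30 + t • vec2 (-5) (-35) : E 2) 0 = - 5 * t := by simp [vec2]; ring
  have e1 : (vec2 0 30 + t • vec2 (-5) (-35) : E 2) 1 = 30 - 35 * t := by simp [vec2]; ring
  refine ⟨⟨⟨subset_closure ⟨?_, ?_, ?_⟩, not_interior (w := vec2 (-7) 1) fun r hr hT => ?_⟩, ?_⟩, ?_⟩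
  · simp only [e0, e1]; linarith
  · simp only [e0, e1]; linarith
  · simp only [e0, e1]; linarith
  · have := hT.2.2
    have f0 : ((vec2 0 30 + t • vec2 (-5) (-35)) + r • vec2 (-7) 1 : E 2) 0 = - 5 * t - 7 * r := by
      simp [vec2]; ring
    have f1 : ((vec2 0 30 + t • vec2 (-5) (-35)) + r • vec2 (-7) 1 : E 2) 1 = 30 - 35 * t + r := by
      simp [vec2]; ring
    simp only [f0, f1] at this
    linarith
  · simp only [mem_ofPred_eq, e0, e1]; intro h; linarith
  · simp only [mem_ofPred_eq, e0, e1]; ring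

theorem edge3_sub : edge (vec2 (-5) (-5)) (vec2 35 5) (Ioo 0 1) ⊆
    (frontier T \ {y | y 0 + y 1 = 30}) \ {y | -7 * y 0 + y 1 = 30} := by
  rintro _ ⟨t, ⟨ht0, ht1⟩, rfl⟩
  have e0 : (vec2 (-5) (-5) + t • vec2 35 5 : E 2) 0 = - 5 + 35 * t := by simp [vec2]; ring
  have e1 : (vec2 (-5) (-5) + t • vec2 35 5 : E 2) 1 = - 5 + 5 * t := by simp [vec2]; ring
  refine ⟨⟨⟨subset_closure ⟨?_, ?_, ?_⟩, not_interior (w := vec2 1 (-7)) fun r hr hT => ?_⟩, ?_⟩, ?_⟩
  · simp only [e0, e1]; linarith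
  · simp only [e0, e1]; linarith
  · simp only [e0, e1]; linarith
  · have := hT.2.1
    have f0 : ((vec2 (-5) (-5) + t • vec2 35 5) + r • vec2 1 (-7) : E 2) 0 = - 5 + 35 * t + r := by
      simp [vec2]; ring
    have f1 : ((vec2 (-5) (-5) + t • vec2 35 5) + r • vec2 1 (-7) : E 2) 1 =
        - 5 + 5 * t - 7 * r := by
      simp [vec2]; ring
    simp only [f0, f1] at this
    linarith
  · simp only [mem_ofPred_eq, e0, e1]; intro h; linarith
  · simp only [mem_ofPred_eq, e0, e1]; intro h; linarith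

theorem perimeter_T : perimeter T = 80 * √2 := by
  have hu : ENNReal.ofReal (80 * √2) =
      ENNReal.ofReal (30 * √2) + (ENNReal.ofReal (25 * √2) + ENNReal.ofReal (25 * √2)) := by
    rw [← ENNReal.ofReal_add (by positivity) (by positivity),
      ← ENNReal.ofReal_add (by positivity) (by positivity)]
    congr 1; ring
  have h1 : μHE[1] (frontier T) ≤ ENNReal.ofReal (80 * √2) := by
    refine (measure_mono frontier_T).trans ?_
    refine (measure_union_le _ _).trans ?_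
    rw [hu]
    refine add_le_add ?_ ((measure_union_le _ _).trans (add_le_add ?_ ?_))
    · rw [len1]; simp
    · rw [len2]; simp
    · rw [len3]; simp
  have m1 : MeasurableSet {y : E 2 | y 0 + y 1 = 30} :=
    (isClosed_eq (by fun_prop) (by fun_prop)).measurableSet
  have m2 : MeasurableSet {y : E 2 | -7 * y 0 + y 1 = 30} :=
    (isClosed_eq (by fun_prop) (by fun_prop)).measurableSet
  have h2 : ENNReal.ofReal (80 * √2) ≤ μHE[1] (frontier T) := by
    rw [hu, ← measure_inter_add_sdiff (frontier T) m1,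
      ← measure_inter_add_sdiff (frontier T \ {y : E 2 | y 0 + y 1 = 30}) m2]
    refine add_le_add ?_ (add_le_add ?_ ?_)
    · refine le_trans (le_of_eq ?_) (measure_mono edge1_sub)
      rw [len1]; simp
    · refine le_trans (le_of_eq ?_) (measure_mono edge2_sub)
      rw [len2]; simp
    · refine le_trans (le_of_eq ?_) (measure_mono edge3_sub)
      rw [len3]; simp
  unfold perimeter
  rw [le_antisymm h1 h2, ENNReal.toReal_ofReal (by positivity)]

/-- There is a convex body `K` in `ℝ³` with the origin in its interior (a tetrahedron) such that,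
with `ℓ_i = V₁(K ∩ e_i^⊥)`, one has
`V₂(K)² < (1/16) (ℓ₁² + ℓ₂² + ℓ₃²)² - (1/8) (ℓ₁⁴ + ℓ₂⁴ + ℓ₃⁴)`. -/
theorem result : ∃ K : Set (E 3), IsConvexBody K ∧ (0 : E 3) ∈ interior K ∧
    V2 K ^ 2 < 1 / 16 * (∑ i : Fin 3, V1 (coordSection K i) ^ 2) ^ 2 -
      1 / 8 * ∑ i : Fin 3, V1 (coordSection K i) ^ 4 := by
  refine ⟨K, K_body, zero_mem, ?_⟩
  have hl : ∀ i : Fin 3, V1 (coordSection K i) = 40 * √2 := by
    intro i
    rw [section_eq]
    unfold V1
    rw [perimeter_T]; ring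
  simp only [hl, Fin.sum_univ_three]
  have s2 : √2 ^ 2 = 2 := Real.sq_sqrt (by norm_num)
  have e1 : (40 * √2) ^ 2 = 3200 := by rw [mul_pow, s2]; norm_num
  have e2 : (40 * √2) ^ 4 = 3200 ^ 2 := by rw [← e1]; ring
  rw [e1, e2]
  have h0 : 0 ≤ V2 K := by unfold V2 surfaceArea; positivity
  have h3 : √3 < 1.7321 := by
    rw [Real.sqrt_lt' (by norm_num)]; norm_num
  have h51 : √51 < 7.1415 := by
    rw [Real.sqrt_lt' (by norm_num)]; norm_num
  have h1 := V2_le
  have h2 : V2 K < 1353.83 := by linarith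
  nlinarith

end Pool.Agent.Results.MP_6df474_gt.TetrahedronDisproof
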